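import Pool.Agent.T6.H44.NS.Sol
import Pool.Agent.T6.H44.NS.Cor
import Pool.Agent.T6.H44.NS.Clu
import Pool.Agent.T6.H44.NS.Sg

set_option autoImplicit false

/-!
# Prime exponents for which the solutions of `p² - 2 r² = -1` have no small prime factors (helper44)

The positive solutions are `p_k + r_k √2 = (1 + √2)^(2 k + 1)`. If `p_k` or `r_k` is a prime and
`k ≥ 1` then the exponent `q = 2 k + 1` is a prime. For a prime exponent `q` all the prime factors of
`p_k` and `r_k` are `± 1` modulo `2 q`, so at least `2 q - 1`. Here: how often are there prime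
factors `≤ M q`?
-/

namespace Pool.Agent.Results.MP_927e73_nt.PrimeFactorsBeyondMultiples

open Finset

/-- the solution `p_k + r_k √2 = (1 + √2)^(2 k + 1)`; its coordinates are `.re = p_k`, `.im = r_k` -/
def sol (k : ℕ) : ℤ√2 := (⟨1, 1⟩ : ℤ√2) ^ (2 * k + 1)

/-- the prime `l` divides `p_k` or `r_k` -/
def IsFactor (l k : ℕ) : Prop := l.Prime ∧ ((l : ℤ) ∣ (sol k).re ∨ (l : ℤ) ∣ (sol k).im)

open Classical in
/-- the `k` for which the exponent `2 k + 1` is a prime and at most `x` -/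
noncomputable def exponents (x : ℕ) : Finset ℕ :=
  (range (x + 1)).filter fun k => (2 * k + 1).Prime ∧ 2 * k + 1 ≤ x

theorem exponents_eq (x : ℕ) : exponents x = Pool.Agent.T6.H44.NS.ex x := by
  unfold exponents Pool.Agent.T6.H44.NS.ex
  congr

open Classical in
theorem result :
    -- all positive solutions
    (∀ p r : ℤ, (0 < p ∧ 0 < r ∧ p ^ 2 - 2 * r ^ 2 = -1) ↔
      ∃ k : ℕ, p = (sol k).re ∧ r = (sol k).im) ∧
    -- (1) the number of the pairs of a prime exponent `≤ x` and a prime factor `≤ M` times the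
    -- exponent is `O(M x / (log x)²)`, uniformly in `M`
    (∃ C : ℝ, 0 < C ∧ ∀ (x : ℕ) (M : ℝ), 2 ≤ x → 1 ≤ M →
      ({z : ℕ × ℕ | z.1 ∈ exponents x ∧ IsFactor z.2 z.1 ∧
        (z.2 : ℝ) ≤ M * (2 * z.1 + 1)}.ncard : ℝ) ≤ C * M * x / (Real.log x) ^ 2) ∧
    -- (2) almost all prime exponents `q` have only prime factors larger than `δ q log q`
    (∀ ε : ℝ, 0 < ε → ∃ δ : ℝ, 0 < δ ∧ ∃ x₀ : ℕ, ∀ x : ℕ, x₀ ≤ x →
      (((exponents x).filter fun k => ∃ l : ℕ, IsFactor l k ∧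
        (l : ℝ) ≤ δ * (2 * k + 1) * Real.log (2 * k + 1)).card : ℝ) ≤
          ε * (exponents x).card) ∧
    -- (3) the sum of the reciprocals of the prime exponents with a prime factor `≤ M` times the
    -- exponent converges
    (∀ M : ℝ, Summable fun k : ℕ =>
      if (2 * k + 1).Prime ∧ ∃ l : ℕ, IsFactor l k ∧ (l : ℝ) ≤ M * (2 * k + 1)
        then (1 : ℝ) / (2 * k + 1) else 0) ∧
    -- (4) for every `H` there is a residue class such that for all large primes `q` in the class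
    -- the prime factors are larger than `H q`
    (∀ H : ℕ, ∃ W b : ℕ, 1 ≤ W ∧ Nat.Coprime b W ∧ ∀ k : ℕ, (2 * k + 1).Prime →
      2 * k + 1 ≡ b [MOD W] → W < 2 * k + 1 → ∀ l : ℕ, IsFactor l k → H * (2 * k + 1) < l) ∧
    -- (5) for all `H` and `m` there are infinitely many clusters of `m` prime exponents `q`, of
    -- bounded diameter, for all of which the prime factors are larger than `H q`
    (∀ H m : ℕ, ∃ C : ℕ, ∀ N₀ : ℕ, ∃ N : ℕ, N₀ ≤ N ∧
      m ≤ ((Icc N (N + C)).filter fun k => (2 * k + 1).Prime ∧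
        ∀ l : ℕ, IsFactor l k → H * (2 * k + 1) < l).card) ∧
    -- (6) exponents `q = 2 k + 1`, `k` odd, with small prime factors: the primes `2 q + 1` divide
    -- `p_k`, the primes `2 q - 1` divide `r_k`
    ∀ k : ℕ, Odd k → ((4 * k + 3).Prime → ((4 * k + 3 : ℕ) : ℤ) ∣ (sol k).re) ∧
      ((4 * k + 1).Prime → ((4 * k + 1 : ℕ) : ℤ) ∣ (sol k).im) := by
  refine ⟨Pool.Agent.T6.H44.NS.solutions, ?_, ?_, ?_, ?_, ?_, ?_⟩
  · obtain ⟨C, hC, h⟩ := Pool.Agent.T6.H44.NS.main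
    refine ⟨C, hC, fun x M hx hM => le_trans ?_ (h x M hx hM)⟩
    set F : Finset (ℕ × ℕ) := (Pool.Agent.T6.H44.NS.ex x).biUnion fun k =>
      (Pool.Agent.T6.H44.NS.fac k ⌊M * (2 * k + 1 : ℕ)⌋₊).image fun l => (k, l) with hF
    have h1 : {z : ℕ × ℕ | z.1 ∈ exponents x ∧ IsFactor z.2 z.1 ∧
        (z.2 : ℝ) ≤ M * (2 * z.1 + 1)} ⊆ (F : Set (ℕ × ℕ)) := by
      rintro ⟨k, l⟩ ⟨h2, h3, h4⟩
      rw [mem_coe, hF, mem_biUnion]
      refine ⟨k, exponents_eq x ▸ h2, ?_⟩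
      rw [mem_image]
      refine ⟨l, ?_, rfl⟩
      rw [Pool.Agent.T6.H44.NS.fac, mem_filter, mem_Icc]
      refine ⟨⟨h3.1.one_le, Nat.le_floor ?_⟩, h3.1, h3.2⟩
      push_cast
      exact h4
    have h5 : {z : ℕ × ℕ | z.1 ∈ exponents x ∧ IsFactor z.2 z.1 ∧
        (z.2 : ℝ) ≤ M * (2 * z.1 + 1)}.ncard ≤
        ∑ k ∈ Pool.Agent.T6.H44.NS.ex x,
          (Pool.Agent.T6.H44.NS.fac k ⌊M * (2 * k + 1 : ℕ)⌋₊).card := by
      refine (Set.ncard_le_ncard h1 F.finite_toSet).trans ?_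
      rw [Set.ncard_coe_finset, hF]
      exact card_biUnion_le.trans (sum_le_sum fun k _ => card_image_le)
    exact_mod_cast h5
  · intro ε hε
    obtain ⟨δ, hδ, x₀, h⟩ := Pool.Agent.T6.H44.NS.almost_all ε hε
    refine ⟨δ, hδ, x₀, fun x hx => ?_⟩
    have h1 := h x hx
    rw [exponents_eq]
    refine le_trans (le_of_eq ?_) h1
    congr 2
    ext k
    rw [mem_filter, mem_filter]
    refine and_congr_right fun _ => ?_
    constructor
    · rintro ⟨l, h2, h3⟩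
      exact ⟨l, h2.1, h3, h2.2⟩
    · rintro ⟨l, h2, h3, h4⟩
      exact ⟨l, ⟨h2, h4⟩, h3⟩
  · intro M
    refine (Pool.Agent.T6.H44.NS.summ M).congr fun k => ?_
    have h1 : ((2 * k + 1).Prime ∧ ∃ l : ℕ, IsFactor l k ∧ (l : ℝ) ≤ M * (2 * k + 1)) ↔
        ((2 * k + 1).Prime ∧ Pool.Agent.T6.H44.NS.Small k (M * (2 * k + 1))) := by
      refine and_congr_right fun _ => ?_
      constructor
      · rintro ⟨l, h2, h3⟩
        exact ⟨l, h2.1, h3, h2.2⟩
      · rintro ⟨l, h2, h3, h4⟩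
        exact ⟨l, ⟨h2, h4⟩, h3⟩
    simp only [h1]
  · intro H
    obtain ⟨W, b, h1, h2, h3⟩ := Pool.Agent.T6.H44.NS.classes H
    exact ⟨W, b, h1, h2, fun k hk hb hW l hl => h3 _ hk ⟨k, rfl⟩ hb hW l hl.1 hl.2⟩
  · intro H m
    obtain ⟨C, h⟩ := Pool.Agent.T6.H44.NS.clu H m
    refine ⟨C, fun N₀ => ?_⟩
    obtain ⟨N, hN, h1⟩ := h N₀
    refine ⟨N, hN, h1.trans (card_le_card ?_)⟩
    intro k hk
    rw [mem_filter] at hk ⊢
    exact ⟨hk.1, hk.2.1, fun l hl => hk.2.2 l hl.1 hl.2⟩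
  · intro k hk
    have hq : (2 * k + 1) % 4 = 3 := by
      obtain ⟨j, rfl⟩ := hk
      omega
    constructor
    · intro h
      have h1 : 4 * k + 3 = 2 * (2 * k + 1) + 1 := by ring
      rw [h1] at h ⊢
      exact Pool.Agent.T6.H44.NS.sg_plus hq h
    · intro h
      have h1 : 4 * k + 1 = 2 * (2 * k + 1) - 1 := by omega
      rw [h1] at h ⊢
      exact Pool.Agent.T6.H44.NS.sg_minus hq h

end Pool.Agent.Results.MP_927e73_nt.PrimeFactorsBeyondMultiples
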